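import Pool.Agent.R936.Arb.Geo
import Pool.Agent.Y163.Pow

/-!
# The action of correspondences on the first factor
-/

set_option linter.unusedVariables false
set_option linter.unusedSectionVars false

open CategoryTheory AlgebraicGeometry TensorProduct

universe u v w

namespace Pool.Agent.R936.Nc

open Pool.Agent.H914 Pool.Agent.W534 VarClass Obj WeilCohomology Module
open Pool.Agent.H281R3.HT
open Pool.Agent.Y163 (HBasis exists_hbasis)
open Pool.Agent.R936.Arb (zw zw_add zw_smul zw_smul' zw_zero zw_sum exists_dec contr contr_sum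
  contr_zw)

variable {k : Type u} [Field k] {𝒱 : VarClass k} {ops : CycleOps 𝒱}
  {W : WeilCohomology.{u, v} ops} {Z Z' P Q : 𝒱.Obj}

lemma contr_add_right (x : W.H (Z.prod P)) (y y' : W.H (P.prod Q)) :
    contr x (y + y') = contr x y + contr x y' := by
  rw [contr, map_add, mul_add, map_add]; rfl

lemma contr_smul_right (c : W.K) (x : W.H (Z.prod P)) (y : W.H (P.prod Q)) :
    contr x (c • y) = c • contr x y := by
  rw [contr, map_smul, mul_smul_comm, map_smul]; rfl

lemma contr_zero_right (x : W.H (Z.prod P)) : contr x (0 : W.H (P.prod Q)) = 0 := by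
  rw [contr, map_zero, mul_zero, map_zero]

/-- The correspondence `γ` acts on the first factor. -/
lemma exists_act (γ : W.H (Z'.prod Z)) : ∃ g : W.H Z →ₗ[W.K] W.H Z',
    ∀ (P : 𝒱.Obj) (z : W.H Z) (x : W.H P), contr γ (zw z x) = zw (g z) x := by
  classical
  obtain ⟨ι, hι, ⟨B⟩⟩ := exists_hbasis W Z
  cases nonempty_fintype ι
  obtain ⟨y, hy⟩ := exists_dec B.b γ
  let g : W.H Z →ₗ[W.K] W.H Z' :=
    ∑ i, (((W.tr Z) ∘ₗ (LinearMap.mulLeft W.K (B.b i))).smulRight (y i))
  have hg : ∀ z, g z = ∑ i, W.tr Z (B.b i * z) • y i := by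
    intro z
    rw [LinearMap.sum_apply]
    rfl
  refine ⟨g, fun P z x => ?_⟩
  refine gr_induction (W.isInternal Z) (p := fun z => contr γ (zw z x) = zw (g z) x) ?_ ?_ z
  · intro j z hz
    rw [hy, contr_sum, hg, zw_sum]
    refine Finset.sum_congr rfl fun i _ => ?_
    rw [contr_zw (B.mem i) hz, zw_smul]
  · intro a b ha hb
    rw [zw_add, contr_add_right, ha, hb, map_add, zw_add]

end Pool.Agent.R936.Nc
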