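import Pool.Agent.R936.Nc.Act
import Pool.Agent.R936.Arb.Fin
import Pool.Agent.R936.Arb.Pred

/-!
# Hodge classes in the image of a correspondence, on products with an arbitrary factor
-/

set_option linter.unusedVariables false
set_option linter.unusedSectionVars false

open CategoryTheory AlgebraicGeometry TensorProduct

universe u v w

namespace Pool.Agent.R936.Nc

open Pool.Agent.H914 Pool.Agent.W534 VarClass Obj WeilCohomology Module
open Pool.Agent.Y121
open Pool.Agent.Y163 (HBasis)
open Pool.Agent.H281R3.HT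
open Pool.Agent.R940 (CMB csH csH_smul csH_map csH_em csH_gr csH_inj HSub em_HSub
  cs_ind cs_tmul type_bound deg_eq repr_zero em_SG mem_of_SG pq_top SG SG_ind)
open Pool.Agent.R936.Hel
open Pool.Agent.R936.Hel2 (BB CC pt wt st st_cons csH_lwf lwf_type wt_sum rel_iff st_eq pt_nonneg
  st_nonneg st_add WB exists_WB csH_tr type_of_tr clL HG st_dual algCl)
open Pool.Agent.R936.Per (Fix hodge_desc HC KC dual_letter')
open Pool.Agent.R936.Arb

variable {k : Type u} [Field k] {𝒱 : VarClass k} {ops : CycleOps 𝒱}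
variable {T : AH.HodgeTheory ops} {Y Z Z' P Q : 𝒱.Obj} {L : Type} [Field L] [Algebra T.W.K L]
  {I : Type w} {X : I → 𝒱.Obj} {ι : I → Type}

lemma em_contr (x : T.W.H (Z'.prod Z)) (y : T.W.H (Z.prod P)) :
    AH.em T.W L (contr x y) = contr (W := baseW T.W L) (AH.em T.W L x) (AH.em T.W L y) := by
  rw [contr, contr, AH.em_map, AH.em_map, ← AH.em_mul, AH.em_push]

section

variable (hpos : ∀ (Y : 𝒱.Obj) (p q : ℤ), p < 0 ∨ q < 0 → T.pq Y p q = ⊥)

variable (M : ∀ i, CMB T (X i) L (ι i))

include hpos in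
/-- **The images of the Hodge classes under a correspondence.** -/
theorem cor_arb [∀ i, Finite (ι i)] (hfix : Fix T L) (σ₀ : L →ₐ[T.W.K] ℂ) {G : Cl T.W}
    (hAlg : ∀ R : Multiset (Σ i, ι i), toZ R ∈ Hel.Rel (wt M) 0 → AlgS (clL G L) (BB M) R)
    {i0 : I} {L' : List I}
    (hb : ∀ R : Multiset (Σ i, ι i), (∀ σ, |lam (wt M) R σ| ≤ (Z.dim : ℕ)) →
      ∃ b : List (Σ i, ι i), b.map Sigma.fst = i0 :: L' ∧ lamL (wt M) b = lam (wt M) R)
    (γ : T.W.H (Z'.prod Z))
    (hZ : ∀ (J : ℕ) (c : T.W.H (Z.prod (Hel.prodOf X i0 L'))), AH.IsHodge T _ J c →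
      contr γ c ∈ G.C (Z'.prod (Hel.prodOf X i0 L'))) (i : I) (Lst : List I) {J : ℕ}
    {c : T.W.H (Z.prod (Hel.prodOf X i Lst))} (hc : AH.IsHodge T _ J c) :
    contr γ c ∈ G.C (Z'.prod (Hel.prodOf X i Lst)) := by
  classical
  refine mem_of_SG (L := L) ?_
  obtain ⟨g, hg⟩ := exists_act (W := baseW T.W L) (AH.em T.W L γ)
  obtain ⟨κ, hκ, N, hN⟩ := exists_WB (ops := ops) (X := X) (ι := ι) Lst i
  cases nonempty_fintype κ
  obtain ⟨b, hb'⟩ := hN _ (BB M)
  obtain ⟨z, hz⟩ := exists_dec (W := baseW T.W L) b (AH.em T.W L c)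
  have hz' : AH.em T.W L c = ∑ a, zw (z a) (lwf (BB M) (N a)) := by
    rw [hz]
    exact Finset.sum_congr rfl fun a _ => by rw [hb']
  have hsum : AH.em T.W L (contr γ c) = ∑ a, zw (g (z a)) (lwf (BB M) (N a)) := by
    rw [em_contr, hz']
    have h1 : ∀ s : Finset κ, contr (W := baseW T.W L) (AH.em T.W L γ)
        (∑ a ∈ s, zw (z a) (lwf (BB M) (N a))) =
        ∑ a ∈ s, zw (g (z a)) (lwf (BB M) (N a)) := by
      intro s
      induction s using Finset.induction_on with
      | empty => rw [Finset.sum_empty, Finset.sum_empty, contr_zero_right]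
      | insert a s ha ih => rw [Finset.sum_insert ha, Finset.sum_insert ha, contr_add_right, ih, hg]
    exact h1 _
  rw [hsum]
  refine Submodule.sum_mem _ fun a _ => ?_
  by_cases hz0 : z a = 0
  · rw [hz0, map_zero, zw_zero]
    exact Submodule.zero_mem _
  have htype := fun σ => comp_types hpos M hN hc hz' a σ
  obtain ⟨b1, hb1, hb2⟩ := hb (↑((N a).map Sigma.fst)) (fun σ => by
    have h0 : csH σ Z (z a) ≠ 0 := fun h => hz0 (csH_inj σ (h.trans (map_zero _).symm))
    obtain ⟨h1, h2, h3, h4⟩ := type_le_dim hpos (htype σ) h0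
    rw [lam_eq, abs_le]
    constructor <;> omega)
  match b1, hb1, hb2 with
  | l :: b2, hb1, hb2 =>
    rw [List.map_cons] at hb1
    obtain ⟨h1, h2⟩ := List.cons.inj hb1
    subst h1
    subst h2
    obtain ⟨C, hC1, hC2, _⟩ := isCan_prod' (BB M) b2 l
    have hwt : ∀ σ, st M σ true (N a) - st M σ false (N a) = st M σ true C - st M σ false C := by
      intro σ
      rw [← lam_eq, ← hb2, ← lam_eq, hC1, lamL_coe]
    obtain ⟨J', hJ'⟩ := comp_HSub hpos M σ₀ (Q := Hel.prodOf X l.1 (b2.map Sigma.fst)) hz0 htype hwt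
    have hmem : zw (g (z a)) (lwf (BB M) C) ∈
        (clL G L).C (Z'.prod (Hel.prodOf X l.1 (b2.map Sigma.fst))) := by
      rw [← hg]
      have h1 := hodge_desc hfix σ₀ hJ'
      refine Submodule.span_induction (p := fun x _ => contr (W := baseW T.W L) (AH.em T.W L γ) x ∈
        (clL G L).C (Z'.prod (Hel.prodOf X l.1 (b2.map Sigma.fst)))) ?_ ?_ ?_ ?_ h1
      · rintro _ ⟨c', hc', rfl⟩
        rw [← em_contr]
        exact em_SG (hZ J' c' hc')
      · rw [contr_zero_right]
        exact Submodule.zero_mem _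
      · intro x y _ _ hx hy
        rw [contr_add_right]
        exact Submodule.add_mem _ hx hy
      · intro t x _ hx
        rw [contr_smul_right]
        exact Submodule.smul_mem _ _ hx
    -- the dual word
    obtain ⟨κ', hκ', N', hN'⟩ := exists_WB (ops := ops) (X := X) (ι := ι) (b2.map Sigma.fst) l.1
    obtain ⟨b', hb''⟩ := hN' _ (BB M)
    obtain ⟨m, hm⟩ := exists_dualv b' hC2
    rw [hb''] at hm
    have hdual := fun σ b => st_dual M hpos hm σ b
    have hword : zw (lwf (BB M) (N' m)) (lwf (BB M) (N a)) ∈ (clL G L).C _ := by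
      rw [zw_lwf]
      refine hAlg _ ?_ _ _ rfl
      rw [rel_iff]
      intro σ
      rw [st_eq, st_eq, st, st, List.map_append, List.map_append, List.sum_append,
        List.sum_append]
      have e1 : ∀ b, ((pull (fst (Hel.prodOf X l.1 (b2.map Sigma.fst)) (Hel.prodOf X i Lst))
          (N' m)).map fun y => pt M σ b y.1).sum = st M σ b (N' m) := by
        intro b
        rw [pull, List.map_map]
        rfl
      have e2 : ∀ b, ((pull (snd (Hel.prodOf X l.1 (b2.map Sigma.fst)) (Hel.prodOf X i Lst))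
          (N a)).map fun y => pt M σ b y.1).sum = st M σ b (N a) := by
        intro b
        rw [pull, List.map_map]
        rfl
      rw [e1, e1, e2, e2]
      have h1 := hdual σ true
      have h2 := hdual σ false
      have h3 := hwt σ
      omega
    have h5 := contr_mem (clL G L) hmem hword
    rw [contr_zw (lwf_gr _) (lwf_gr _)] at h5
    have h6 := Submodule.smul_mem _ ((baseW T.W L).tr _ (lwf (BB M) C * lwf (BB M) (N' m)))⁻¹ h5
    rwa [smul_smul, inv_mul_cancel₀ hm, one_smul] at h6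

end

end Pool.Agent.R936.Nc
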