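import Pool.Agent.R936.Two.Defs

/-!
# The noncommutative Hodge conjecture: definitions
-/

universe u w

namespace Pool.Agent.R936.Nc

open CategoryTheory H914 H914.VarClass H914.VarClass.Obj H914.WeilCohomology Y121.AHS

variable {k : Type u} [Field k] {𝒱 : VarClass k} {ops : CycleOps 𝒱}

/-- The composition `p₂₃_* (p₂₁^* γ * p₁₃^* c)` of the classes `γ` on `Z' × Z` and `c` on `Z × P`: the
image of `c` under the correspondence `γ` times the diagonal of `P`. (The three factors are `Z`, `Z'`
and `P`.) -/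
noncomputable def comp {W : WeilCohomology.{u, 0} ops} {Z' Z P : 𝒱.Obj} (γ : W.H (Z'.prod Z))
    (c : W.H (Z.prod P)) : W.H (Z'.prod P) :=
  W.push (snd Z (Z'.prod P))
    (W.map (Obj.lift (snd Z (Z'.prod P) ≫ fst Z' P) (fst Z (Z'.prod P))) γ *
      W.map (Obj.lift (fst Z (Z'.prod P)) (snd Z (Z'.prod P) ≫ snd Z' P)) c)

/-- The images of all Hodge classes on `Z × P` under `γ` are linear combinations of classes of algebraic
cycles on `Z × P`. If `γ` is the Mukai vector of the kernel of the projection of `D(Z)` to an admissible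
subcategory `𝒞`, then this is the noncommutative Hodge conjecture for the admissible subcategory
`𝒞 ⊠ D(P)` of `D(Z × P)`. -/
def NcHodge {T : HodgeTheory ops} {Z : 𝒱.Obj} (γ : T.W.H (Z.prod Z)) (P : 𝒱.Obj) : Prop :=
  ∀ (j : ℕ) (c : T.W.H (Z.prod P)), IsHodge T (Z.prod P) j c →
    comp γ c ∈ Submodule.span T.W.K
      {x | ∃ (i : ℕ) (z : (Z.prod P).Cycles), (Z.prod P).IsCyc i z ∧ T.W.cl (Z.prod P) z = x}

end Pool.Agent.R936.Nc
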