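import Pool.Agent.R936.Nc.Cor
import Pool.Agent.R936.Nc.Defs
import Pool.Agent.R936.Two.Fin

/-!
# Hodge classes in the image of a correspondence, on products with an arbitrary factor: the theorem
-/

set_option linter.unusedVariables false
set_option linter.unusedSectionVars false

open CategoryTheory AlgebraicGeometry TensorProduct

universe u v w

namespace Pool.Agent.R936.Nc

open Pool.Agent.H914 Pool.Agent.W534 VarClass Obj WeilCohomology Module
open Pool.Agent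
open Pool.Agent.Y121 Pool.Agent.Y121.AHS
open Pool.Agent.Y163 (HBasis)
open Pool.Agent.H281R3.HT
open Pool.Agent.Y133.Half (ClassPred spanCycles_of_algSpan)
open Pool.Agent.W536.RR (cl_mem_algSpan)
open Pool.Agent.R940 (CMB csH csH_smul csH_map csH_em csH_gr csH_inj HSub em_HSub
  cs_ind cs_tmul type_bound deg_eq repr_zero em_SG mem_of_SG pq_top SG SG_ind
  NonnegTypes IsCM HodgeConj exists_cycle)
open Pool.Agent.R936
open Pool.Agent.R936.Hel (Cl toZ Lt IsCan isCan_prod' lwf)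
open Pool.Agent.R936.Hel2 (BB CC opL pt wt st rank_le HG HodgeGroupDimLe IsFactorBound Few prodOf_eq
  hodge_red algCl clL)
open Pool.Agent.R936.Per (Fix HC KC dual_letter' exists_cmb')
open Pool.Agent.R936.Arb

variable {k : Type u} [Field k] {𝒱 : VarClass k} {ops : CycleOps 𝒱} {I : Type w} {X : I → 𝒱.Obj}

section AH

variable {T : AH.HodgeTheory ops}

theorem exists_uniC [Nonempty I]
    (hpos : ∀ (Y : 𝒱.Obj) (p q : ℤ), p < 0 ∨ q < 0 → T.pq Y p q = ⊥)
    {f : ∀ i, T.W.H (X i) →ₗ[T.W.K] T.W.H (X i)} (hf : ∀ i, Squarefree (LinearMap.charpoly (f i)))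
    (hgr : ∀ i, ∀ j, ∀ x ∈ T.W.gr (X i) j, f i x ∈ T.W.gr (X i) j)
    (hpq : ∀ i, ∀ (p q : ℤ), ∀ x : HC T (X i), x ∈ T.pq (X i) p q →
      opL ℂ (f i) x ∈ T.pq (X i) p q)
    {R : ℕ} {E : Fin R → ∀ i, (T.W.H (X i) →ₗ[T.W.K] T.W.H (X i))} {z : Fin R → ℂ}
    (hE : ∀ (i : I) (p q : ℤ) (x : (baseW T.W ℂ).H (X i)), x ∈ T.pq (X i) p q →
      ∑ j, (show (baseW T.W ℂ).K from z j) • opL ℂ (E j i) x =
        (show (baseW T.W ℂ).K from ((p - q : ℤ) : ℂ)) • x) :
    ∃ (i0 : I) (L0 : List I),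
      ∀ (G : Cl T.W), (∀ i L, HG G (Hel.prodOf X i L)) →
        ∀ (Z Z' : 𝒱.Obj) (γ : T.W.H (Z'.prod Z)),
          (∀ J (c : T.W.H (Z.prod (Hel.prodOf X i0 (powL L0 i0 Z.dim)))), AH.IsHodge T _ J c →
            contr γ c ∈ G.C (Z'.prod (Hel.prodOf X i0 (powL L0 i0 Z.dim)))) →
          ∀ i Lst J (c : T.W.H (Z.prod (Hel.prodOf X i Lst))), AH.IsHodge T _ J c →
            contr γ c ∈ G.C (Z'.prod (Hel.prodOf X i Lst)) := by
  classical
  obtain ⟨i1⟩ := ‹Nonempty I›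
  let L := AlgebraicClosure T.W.K
  have hchar : CharZero L := charZero_of_injective_algebraMap (algebraMap T.W.K L).injective
  let σ₀ : L →ₐ[T.W.K] ℂ := IsAlgClosed.lift
  have hfix : Fix T L := by
    intro x hx
    have h1 := (InfiniteGalois.mem_bot_iff_fixed (k := T.W.K) (K := L) x).2 fun τ => hx τ
    exact IntermediateField.mem_bot.1 h1
  have hM := fun i : I => exists_cmb' (T := T) (X := X i) (L := L) (f := f i) (hf i) (hgr i)
      (fun p q x hx => hpq i p q x hx) (IsAlgClosed.splits _)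
  choose M μ hμ hMμ using hM
  rcases isEmpty_or_nonempty (Σ i, Fin (finrank T.W.K (T.W.H (X i)))) with hem | ⟨⟨l0⟩⟩
  · -- no letters
    have h0 : ∀ (Z : 𝒱.Obj) i Lst (c : T.W.H (Z.prod (Hel.prodOf X i Lst))), c = 0 := by
      intro Z i Lst c
      obtain ⟨g⟩ := exists_pr X Lst i
      have h1 : (1 : T.W.H (X i)) = 0 := by
        apply AH.em_injective (W := T.W) (L := L)
        have h2 := (M i).B.b.sum_repr (AH.em T.W L 1)
        rw [← h2]
        exact Finset.sum_eq_zero fun a _ => (hem.false ⟨i, a⟩).elim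
      have h2 : (1 : T.W.H (Z.prod (Hel.prodOf X i Lst))) = 0 := by
        have h3 := congrArg (T.W.map (snd Z _ ≫ g)) h1
        rwa [map_one, map_zero] at h3
      rw [← mul_one c, h2, mul_zero]
    refine ⟨i1, [], fun G _ Z Z' γ _ i Lst j c _ => ?_⟩
    rw [h0 _ _ _ c, contr_zero_right]
    exact Submodule.zero_mem _
  -- dual letters
  have hd := fun l : (Σ i, Fin (finrank T.W.K (T.W.H (X i)))) => dual_letter' (M := M) hpos l
  choose st' hst1 hst2 using hd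
  have hst : ∀ l, Hel2.wt M (st' l) = - Hel2.wt M l := by
    intro l
    funext σ
    have h1 := hst2 l σ true
    have h2 := hst2 l σ false
    rw [Pi.neg_apply, Hel2.wt, Hel2.wt]
    omega
  -- letters of degree zero
  have hz : ∀ l : (Σ i, Fin (finrank T.W.K (T.W.H (X i)))), HasZ (Hel2.wt M) l.1 := by
    intro l
    by_contra hcon
    have h1 : ∀ a, (M l.1).B.deg a ≠ 0 := by
      intro a ha
      apply hcon
      refine ⟨a, ?_⟩
      funext σ
      obtain ⟨h1, h2, h3⟩ := deg_eq (M l.1) hpos σ a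
      rw [ha, Nat.cast_zero] at h1
      have h4 : pt M σ true ⟨l.1, a⟩ = (M l.1).p σ a := rfl
      have h5 : pt M σ false ⟨l.1, a⟩ = (M l.1).q σ a := rfl
      rw [Hel2.wt, h4, h5, Pi.zero_apply]
      omega
    have h2 : ∀ a, (M l.1).B.b.repr (1 : (baseW T.W L).H (X l.1)) a = 0 := fun a =>
      repr_zero ((baseW T.W L).isInternal (X l.1)).submodule_iSupIndep (M l.1).B.b
        (fun a => (M l.1).B.deg a) (fun a => (M l.1).B.mem a) ((baseW T.W L).one_mem _) (h1 a)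
    have h3 : (1 : (baseW T.W L).H (X l.1)) = 0 := by
      rw [← (M l.1).B.b.sum_repr 1]
      exact Finset.sum_eq_zero fun a _ => by rw [h2, zero_smul]
    apply (M l.1).B.b.ne_zero l.2
    rw [← mul_one ((M l.1).B.b l.2), h3, mul_zero]
  obtain ⟨L0, hL0⟩ := exists_product (h := Hel2.wt M) (fun s => rank_le M hE s) hst hz l0
  refine ⟨l0.1, L0, fun G hG Z Z' γ hZ i Lst J c hc => ?_⟩
  exact cor_arb hpos M hfix σ₀ (fun Rl hRl => algS_of_HG M hfix σ₀ hpos hG hRl)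
    (fun Rl hRl => hL0 Z.dim Rl hRl) γ hZ i Lst hc

end AH

variable {T : AHS.HodgeTheory ops}

lemma ncHodge_iff {Z : 𝒱.Obj} (γ : T.W.H (Z.prod Z)) (P : 𝒱.Obj) :
    NcHodge γ P ↔ ∀ J (c : T.W.H (Z.prod P)), AH.IsHodge (toH T) _ J c →
      contr (W := (toH T).W) γ c ∈ (algCl (toH T).W).C (Z.prod P) := by
  have e : Submodule.span T.W.K {x | ∃ (i : ℕ) (z : (Z.prod P).Cycles), (Z.prod P).IsCyc i z ∧
      T.W.cl (Z.prod P) z = x} = algSpan T.W (Z.prod P) := by
    refine le_antisymm (Submodule.span_le.2 ?_) ?_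
    · rintro _ ⟨i, z, hz, rfl⟩
      exact cl_mem_algSpan hz
    · intro c hc
      refine Pool.Agent.W536.RR.algSpan_induction
        (p := fun c => c ∈ Submodule.span T.W.K {x | ∃ (i : ℕ) (z : (Z.prod P).Cycles),
          (Z.prod P).IsCyc i z ∧ T.W.cl (Z.prod P) z = x}) (Submodule.zero_mem _)
        (fun _ _ => Submodule.add_mem _) (fun _ _ => Submodule.smul_mem _ _)
        (fun j w hw => Submodule.subset_span ⟨j, w, hw, rfl⟩) hc
  constructor
  · intro h J c hc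
    have h1 := h J c hc
    rw [e] at h1
    exact h1
  · intro h J c hc
    rw [e]
    exact h J c hc

theorem nc_main' [Nonempty I] (hpos : NonnegTypes T) (hX : ∀ i, IsCM T (X i))
    {R : ℕ} (hR : HodgeGroupDimLe T X R)
    (h : ∀ i L, (∃ F : Finset I, F.card ≤ R + 1 ∧ ∀ j ∈ i :: L, j ∈ F) →
      HodgeConj T (Hel2.prodOf X i L)) :
    ∃ (i0 : I) (L0 : List I), ∀ (Z : 𝒱.Obj) (γ : T.W.H (Z.prod Z)),
      NcHodge γ (Arb.powerOf X i0 L0 Z.dim) ↔ ∀ i L, NcHodge γ (Hel2.prodOf X i L) := by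
  have hall : ∀ i L, HG (T := toH T) (algCl (toH T).W) (Hel.prodOf X i L) := by
    intro i L
    rw [← prodOf_eq]
    exact (hg_iff _).2 (hodge_red hpos hX hR (m := ⊤) (Or.inl rfl) (fun i L hL => h i L hL.1) i L)
  choose f hf hgr hpq using hX
  obtain ⟨E, z, hE⟩ := hR
  obtain ⟨i0, L0, h1⟩ := exists_uniC (T := toH T) (X := X) hpos (f := f) hf hgr hpq
    (R := R) (E := E) (z := z) (fun i p q x hx => hE i p q x hx)
  refine ⟨i0, L0, fun Z γ => ⟨fun hD i L => ?_, fun hD => hD _ _⟩⟩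
  rw [prodOf_eq]
  rw [powerOf_eq] at hD
  exact (ncHodge_iff γ _).2 (h1 _ hall Z Z γ ((ncHodge_iff γ _).1 hD) i L)

lemma nc_main'' [Nonempty I] (hpos : NonnegTypes T)
    (hX : ∀ i, IsCM T (X i)) {R : ℕ} (hR : HodgeGroupDimLe T X R) (F : I → List I → 𝒱.Obj)
    (hF : F = Hel2.prodOf X)
    (h : ∀ i L, (∃ F : Finset I, F.card ≤ R + 1 ∧ ∀ j ∈ i :: L, j ∈ F) →
      Two.AllAlg (IsHodge T (F i L))) :
    ∃ (i0 : I) (L0 : List I), ∀ (Z : 𝒱.Obj) (γ : T.W.H (Z.prod Z)),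
      NcHodge γ (F i0 (L0 ++ (List.replicate (Z.dim - 1) (i0 :: L0)).flatten)) ↔
        ∀ i L, NcHodge γ (F i L) := by
  subst hF
  exact nc_main' hpos hX hR h

/-- **The noncommutative Hodge conjecture with an arbitrary factor.** -/
theorem nc_main [Nonempty I] (hpos : NonnegTypes T) (hX : ∀ i, IsCM T (X i))
    {R : ℕ} (hR : Two.HgDimLe T X R)
    (h : ∀ i L, (∃ F : Finset I, F.card ≤ R + 1 ∧ ∀ j ∈ i :: L, j ∈ F) →
      Two.AllAlg (IsHodge T (Two.prodOf X i L))) :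
    ∃ (i0 : I) (L0 : List I), ∀ (Z : 𝒱.Obj) (γ : T.W.H (Z.prod Z)),
      NcHodge γ (Two.powerOf X i0 L0 Z.dim) ↔ ∀ i L, NcHodge γ (Two.prodOf X i L) :=
  nc_main'' hpos hX (show Hel2.HodgeGroupDimLe T X R from hR) (Two.prodOf X)
    (funext fun i => funext fun L => Two.prodOf_eq' X i L) h

end Pool.Agent.R936.Nc
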